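import Pool.Agent.Lib_helper30.PF.W.J
import Pool.Agent.Lib_helper30.PF.W.K

/-!
Every finite connected graph without an induced path on five vertices has a vertex
which lies on all of its longest paths.
-/

set_option autoImplicit false

namespace Pool.Agent.Results.MP_7807c5_co.GallaiPFive

/-- In a finite connected P5-free graph some vertex lies on every longest path. -/
theorem result {V : Type*} [Finite V] (G : SimpleGraph V) (hG : G.Connected)
    (h5 : ¬ (SimpleGraph.pathGraph 5).IsIndContained G) :
    ∃ v : V, ∀ (a b : V) (p : G.Walk a b), p.IsPath →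
      (∀ (c d : V) (q : G.Walk c d), q.IsPath → q.length ≤ p.length) → v ∈ p.support := by
  obtain ⟨g, hg⟩ := Pool.Agent.PF.J_main (Pool.Agent.PF.K_conn hG) (Pool.Agent.PF.K_p5 h5)
  refine ⟨g, fun a b p hp hmax => hg p.support ⟨Pool.Agent.PF.K_walk p hp, fun m hm => ?_⟩⟩
  by_cases hne : m = []
  · simp [hne]
  · obtain ⟨c, d, q, hq, rfl⟩ := Pool.Agent.PF.K_list hm hne
    have h1 := hmax c d q hq
    simp only [SimpleGraph.Walk.length_support]
    omega

end Pool.Agent.Results.MP_7807c5_co.GallaiPFive
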